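import Mathlib

set_option autoImplicit false

open Set

/-! Elementary combinatorics of the first uncountable ordinal: a linear well-order `W`, uncountable,
with countable initial segments. `Stat S` says that `S` meets the set of closure points of every
function from finite sets to points. -/

namespace Pool.Agent.H748R3

variable {W : Type} [LinearOrder W]

/-- `δ` is closed under `h`. -/
def ClosedUnder (h : Finset W → W) (δ : W) : Prop :=
  ∀ t : Finset W, (∀ a ∈ t, a < δ) → h t < δ

/-- `S` is stationary: it contains a closure point of every function from finite sets to points. -/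
def Stat (S : Set W) : Prop := ∀ h : Finset W → W, ∃ δ ∈ S, ClosedUnder h δ

/-- The basic hypotheses on `W`. -/
structure OmegaOneLike (W : Type) [LinearOrder W] : Prop where
  wf : WellFoundedLT W
  initial : ∀ a : W, (Iio a).Countable
  unc : ¬ Countable W

theorem OmegaOneLike.bdd (hW : OmegaOneLike W) (S : Set W) (hS : S.Countable) :
    ∃ b : W, ∀ a ∈ S, a < b := by
  by_contra hcon
  push Not at hcon
  apply hW.unc
  rw [← countable_univ_iff]
  have h1 : (univ : Set W) ⊆ ⋃ a ∈ S, Iic a := by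
    intro b _
    obtain ⟨a, ha, hb⟩ := hcon b
    simp only [mem_iUnion]
    exact ⟨a, ha, hb⟩
  refine Set.Countable.mono h1 (hS.biUnion fun a _ => ?_)
  have h2 : Iic a = insert a (Iio a) := by
    ext x
    simp [le_iff_eq_or_lt]
  rw [h2]
  exact (hW.initial a).insert a

omit [LinearOrder W] in
theorem countable_finset_sub (s : Set W) (hs : s.Countable) :
    {t : Finset W | (∀ a ∈ t, a ∈ s)}.Countable := by
  have := Set.countable_ofPred_finite_subset hs
  have h2 : {t : Finset W | (∀ a ∈ t, a ∈ s)} = (fun t : Finset W => (t : Set W)) ⁻¹'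
      {t | t.Finite ∧ t ⊆ s} := by
    ext t
    simp only [mem_preimage, mem_ofPred_eq]
    constructor
    · intro h
      exact ⟨t.finite_toSet, fun a ha => h a ha⟩
    · intro h a ha
      exact h.2 ha
  rw [h2]
  exact this.preimage_of_injOn (Finset.coe_injective.injOn)

theorem OmegaOneLike.stat_univ (hW : OmegaOneLike W) : Stat (univ : Set W) := by
  intro h
  have step : ∀ a : W, ∃ b : W, a < b ∧ ∀ t : Finset W, (∀ x ∈ t, x < a) → h t < b := by
    intro a
    have h1 : (h '' {t : Finset W | (∀ x ∈ t, x ∈ Iio a)}).Countable :=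
      (countable_finset_sub _ (hW.initial a)).image h
    obtain ⟨b, hb⟩ := hW.bdd _ (h1.insert a)
    refine ⟨b, hb a (mem_insert _ _), fun t ht => hb _ (mem_insert_of_mem _ ⟨t, ht, rfl⟩)⟩
  choose g hg1 hg2 using step
  have := hW.wf
  obtain ⟨a0⟩ : Nonempty W := by
    by_contra hn
    rw [not_nonempty_iff] at hn
    exact hW.unc inferInstance
  let d : ℕ → W := fun n => g^[n] a0
  have hd : ∀ n, d (n + 1) = g (d n) := fun n => by
    simp only [d, Function.iterate_succ_apply']
  have hmono : StrictMono d := strictMono_nat_of_lt_succ fun n => by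
    rw [hd]; exact hg1 _
  obtain ⟨b, hb⟩ := hW.bdd (range d) (countable_range d)
  have hne : {b : W | ∀ n, d n < b}.Nonempty := ⟨b, fun n => hb _ ⟨n, rfl⟩⟩
  set δ := WellFounded.min (wellFounded_lt (α := W)) {b : W | ∀ n, d n < b} hne with hδ
  have hδ1 : ∀ n, d n < δ := WellFounded.min_mem (wellFounded_lt (α := W)) _ hne
  have hδ2 : ∀ x, x < δ → ∃ n, x ≤ d n := by
    intro x hx
    by_contra hcon
    push Not at hcon
    exact WellFounded.not_lt_min (wellFounded_lt (α := W)) {b : W | ∀ n, d n < b} hcon hx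
  refine ⟨δ, mem_univ _, fun t ht => ?_⟩
  have h3 : ∃ n, ∀ x ∈ t, x < d n := by
    induction t using Finset.induction_on with
    | empty => exact ⟨0, by simp⟩
    | insert a t _ ih =>
      obtain ⟨n, hn⟩ := ih (fun x hx => ht x (Finset.mem_insert_of_mem hx))
      obtain ⟨m, hm⟩ := hδ2 a (ht a (Finset.mem_insert_self _ _))
      refine ⟨max n (m + 1), fun x hx => ?_⟩
      rcases Finset.mem_insert.mp hx with h | h
      · subst h
        exact lt_of_le_of_lt hm (hmono (by omega))
      · exact lt_of_lt_of_le (hn x h) (hmono.monotone (le_max_left _ _))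
  obtain ⟨n, hn⟩ := h3
  calc h t < g (d n) := hg2 _ t hn
    _ = d (n + 1) := (hd n).symm
    _ < δ := hδ1 _

theorem OmegaOneLike.stat_iUnion (hW : OmegaOneLike W) (S : ℕ → Set W)
    (h : Stat (⋃ n, S n)) : ∃ n, Stat (S n) := by
  by_contra hcon
  push Not at hcon
  unfold Stat at hcon
  push Not at hcon
  choose f hf using hcon
  have h1 : ∀ t : Finset W, ∃ b, ∀ n, f n t < b := by
    intro t
    obtain ⟨b, hb⟩ := hW.bdd (range fun n => f n t) (countable_range _)
    exact ⟨b, fun n => hb _ ⟨n, rfl⟩⟩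
  choose g hg using h1
  obtain ⟨δ, hδ, hcl⟩ := h g
  obtain ⟨n, hn⟩ := mem_iUnion.mp hδ
  exact hf n δ hn (fun t ht => (hg t n).trans (hcl t ht))

theorem OmegaOneLike.stat_Ioi (hW : OmegaOneLike W) (ξ : W) : Stat (Ioi ξ) := by
  intro h
  obtain ⟨δ, -, hδ⟩ := hW.stat_univ (fun t => max (h t) ξ)
  refine ⟨δ, ?_, fun t ht => lt_of_le_of_lt (le_max_left _ _) (hδ t ht)⟩
  exact lt_of_le_of_lt (le_max_right _ _) (hδ ∅ (by simp))

/-- Ulam: there is a set which is stationary together with its complement. -/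
theorem OmegaOneLike.bistationary (hW : OmegaOneLike W) :
    ∃ E : Set W, Stat E ∧ Stat Eᶜ := by
  have hinj : ∀ a : W, ∃ f : W → ℕ, InjOn f (Iio a) := fun a =>
    (Set.countable_iff_exists_injOn.mp (hW.initial a))
  choose f hf using hinj
  have h1 : ∀ ξ : W, ∃ n, Stat {α : W | ξ < α ∧ f α ξ = n} := by
    intro ξ
    apply hW.stat_iUnion
    have : (⋃ n, {α : W | ξ < α ∧ f α ξ = n}) = Ioi ξ := by
      ext α
      simp
    rw [this]
    exact hW.stat_Ioi ξ
  choose n hn using h1
  have h2 : ¬ Function.Injective n := fun h => hW.unc h.countable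
  simp only [Function.Injective] at h2
  push Not at h2
  obtain ⟨ξ, η, hξη, hne⟩ := h2
  refine ⟨{α : W | ξ < α ∧ f α ξ = n ξ}, hn ξ, ?_⟩
  intro h
  obtain ⟨δ, hδ, hcl⟩ := hn η h
  refine ⟨δ, ?_, hcl⟩
  intro hc
  exact hne (hf δ hc.1 hδ.1 (by rw [hc.2, hδ.2, hξη]))

/-- A ladder system on `W`. -/
theorem OmegaOneLike.ladder (hW : OmegaOneLike W) :
    ∃ C : W → Set W, (∀ δ, C δ ⊆ Iio δ) ∧ (∀ δ γ, γ < δ → (C δ ∩ Iio γ).Finite) ∧
      (∀ δ, (Iio δ).Nonempty → (∀ a < δ, ∃ b, a < b ∧ b < δ) → (C δ).Infinite) := by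
  have key : ∀ δ : W, ∃ C : Set W, C ⊆ Iio δ ∧ (∀ γ < δ, (C ∩ Iio γ).Finite) ∧
      ((Iio δ).Nonempty → (∀ a < δ, ∃ b, a < b ∧ b < δ) → C.Infinite) := by
    intro δ
    by_cases hlim : (Iio δ).Nonempty ∧ (∀ a < δ, ∃ b, a < b ∧ b < δ)
    · obtain ⟨hne, hl⟩ := hlim
      obtain ⟨e, he⟩ := (hW.initial δ).exists_eq_range hne
      have hel : ∀ n, e n < δ := fun n => by
        have : e n ∈ Iio δ := by rw [he]; exact ⟨n, rfl⟩
        exact this
      have hnext : ∀ a : W, ∀ n : ℕ, a < δ → ∃ b, a < b ∧ e n < b ∧ b < δ := by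
        intro a n ha
        obtain ⟨b, hb1, hb2⟩ := hl (max a (e n)) (max_lt ha (hel n))
        exact ⟨b, lt_of_le_of_lt (le_max_left _ _) hb1, lt_of_le_of_lt (le_max_right _ _) hb1,
          hb2⟩
      choose! nx hn1 hn2 hn3 using hnext
      let g : ℕ → W := fun n => Nat.rec (e 0) (fun k a => nx a k) n
      have hg0 : g 0 = e 0 := rfl
      have hgs : ∀ n, g (n + 1) = nx (g n) n := fun n => rfl
      have hgδ : ∀ n, g n < δ := by
        intro n
        induction n with
        | zero => exact hel 0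
        | succ k ih => rw [hgs]; exact hn3 _ _ ih
      have hmono : StrictMono g := strictMono_nat_of_lt_succ fun n => by
        rw [hgs]; exact hn1 _ _ (hgδ n)
      refine ⟨range g, ?_, ?_, ?_⟩
      · rintro _ ⟨n, rfl⟩
        exact hgδ n
      · intro γ hγ
        have : γ ∈ range e := by rw [← he]; exact hγ
        obtain ⟨m, rfl⟩ := this
        refine ((Set.finite_Iio (m + 1)).image g).subset ?_
        rintro _ ⟨⟨n, rfl⟩, hn⟩
        refine ⟨n, ?_, rfl⟩
        by_contra hc
        simp only [mem_Iio, not_lt] at hc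
        have h1 : e m < g (m + 1) := by rw [hgs]; exact hn2 _ _ (hgδ m)
        have h2 : g (m + 1) ≤ g n := hmono.monotone hc
        exact absurd hn (not_lt.mpr (h1.le.trans h2))
      · intro _ _
        exact Set.infinite_range_of_injective hmono.injective
    · refine ⟨∅, by simp, by simp, fun h1 h2 => absurd ⟨h1, h2⟩ hlim⟩
  choose C h1 h2 h3 using key
  exact ⟨C, h1, fun δ γ h => h2 δ γ h, h3⟩

/-- The type of the first uncountable ordinal. -/
theorem omegaOneLike_toType : OmegaOneLike (Cardinal.aleph 1).ord.ToType := by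
  refine ⟨inferInstance, fun a => ?_, fun h => ?_⟩
  · rw [← Cardinal.le_aleph0_iff_set_countable, ← Order.lt_succ_iff, Cardinal.succ_aleph0]
    simpa using Cardinal.mk_Iio_lt a
  · have h1 := Cardinal.mk_le_aleph0_iff.mpr h
    simp only [Cardinal.mk_ord_toType] at h1
    exact absurd h1 (not_le.mpr Cardinal.aleph0_lt_aleph_one)

end Pool.Agent.H748R3
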