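import Mathlib
import Pool.Agent.H748R3.Stat

set_option autoImplicit false

open Set Topology

namespace Pool.Agent.H748R3

/-- Sequences defined from their histories. -/
theorem exists_hist {X : Type} (pick : List X → X) :
    ∃ x : ℕ → X, ∀ n, x n = pick ((List.range n).map x) := by
  let hist : ℕ → List X := fun n => Nat.rec [] (fun _ h => h ++ [pick h]) n
  have h0 : hist 0 = [] := rfl
  have hs : ∀ n, hist (n + 1) = hist n ++ [pick (hist n)] := fun n => rfl
  refine ⟨fun n => pick (hist n), fun n => ?_⟩
  have : ∀ n, hist n = (List.range n).map (fun n => pick (hist n)) := by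
    intro n
    induction n with
    | zero => simp [h0]
    | succ k ih => rw [hs, List.range_succ, List.map_append, ← ih]; simp
  simp only
  rw [← this n]

theorem countable_lists {X : Type} (S : Set X) (hS : S.Countable) :
    {L : List X | ∀ m ∈ L, m ∈ S}.Countable := by
  have : Countable S := hS.to_subtype
  have h : {L : List X | ∀ m ∈ L, m ∈ S} ⊆ range (fun L : List S => L.map Subtype.val) := by
    intro L hL
    induction L with
    | nil => exact ⟨[], rfl⟩
    | cons a L ih =>
      obtain ⟨L', hL'⟩ := ih (fun m hm => hL m (List.mem_cons_of_mem _ hm))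
      refine ⟨⟨a, hL a List.mem_cons_self⟩ :: L', ?_⟩
      simp only at hL'
      simp [hL']
  exact (countable_range _).mono h

/-- ONE has a winning strategy in the open-point game on `X`. In inning `n`, ONE chooses a nonempty
open set and TWO a point of it; ONE wins if the chosen points form a dense set. -/
def OneWinsOpenPoint (X : Type) [TopologicalSpace X] : Prop :=
  ∃ σ : List X → Set X, (∀ s, IsOpen (σ s) ∧ (σ s).Nonempty) ∧
    ∀ x : ℕ → X, (∀ n, x n ∈ σ ((List.range n).map x)) → Dense (range x)

/-- TWO has a winning strategy in the open-point game on `X`. -/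
def TwoWinsOpenPoint (X : Type) [TopologicalSpace X] : Prop :=
  ∃ τ : List (Set X) → X, ∀ O : ℕ → Set X, (∀ n, IsOpen (O n) ∧ (O n).Nonempty) →
    (∀ n, τ ((List.range (n + 1)).map O) ∈ O n) ∧
      ¬ Dense (range fun n => τ ((List.range (n + 1)).map O))

/-- ONE has a winning strategy in the game `G₁(D, D)`, `D` the family of dense subsets of `X`. In
inning `n`, ONE chooses a dense set and TWO a point of it; TWO wins if the chosen points form a
dense set. -/
def OneWinsDense (X : Type) [TopologicalSpace X] : Prop :=
  ∃ σ : List X → Set X, (∀ s, Dense (σ s)) ∧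
    ∀ x : ℕ → X, (∀ n, x n ∈ σ ((List.range n).map x)) → ¬ Dense (range x)

/-- TWO has a winning strategy in the game `G₁(D, D)`, `D` the family of dense subsets of `X`. -/
def TwoWinsDense (X : Type) [TopologicalSpace X] : Prop :=
  ∃ τ : List (Set X) → X, ∀ D : ℕ → Set X, (∀ n, Dense (D n)) →
    (∀ n, τ ((List.range (n + 1)).map D) ∈ D n) ∧
      Dense (range fun n => τ ((List.range (n + 1)).map D))

theorem two_of_oneDense {X : Type} [TopologicalSpace X] [Nonempty X] (h : OneWinsDense X) :
    TwoWinsOpenPoint X := by
  classical
  obtain ⟨σ, hσ, hwin⟩ := h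
  let pick : Set X → X := fun S => if h : S.Nonempty then h.choose else Classical.arbitrary X
  have hpick : ∀ S : Set X, S.Nonempty → pick S ∈ S := fun S hS => by
    simp only [pick, dif_pos hS]
    exact hS.choose_spec
  let run : List (Set X) → List X := fun L => L.foldl (fun h O => h ++ [pick (O ∩ σ h)]) []
  refine ⟨fun L => pick (L.getLastD ∅ ∩ σ (run L.dropLast)), fun O hO => ?_⟩
  set x : ℕ → X := fun n => pick (O n ∩ σ (run ((List.range n).map O))) with hx
  have hrun : ∀ n, run ((List.range n).map O) = (List.range n).map x := by
    intro n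
    induction n with
    | zero => simp [run]
    | succ k ih =>
      rw [List.range_succ, List.map_append, List.map_append]
      simp only [run, List.foldl_append, List.map_cons, List.map_nil, List.foldl_cons,
        List.foldl_nil] at ih ⊢
      rw [ih]
      simp only [hx, run, ih]
  have hlast : ∀ n, (pick ((((List.range (n + 1)).map O).getLastD ∅) ∩
      σ (run (((List.range (n + 1)).map O).dropLast)))) = x n := by
    intro n
    rw [List.range_succ, List.map_append]
    simp [hx]
  have hmem : ∀ n, x n ∈ O n ∩ σ ((List.range n).map x) := by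
    intro n
    have h1 : (O n ∩ σ ((List.range n).map x)).Nonempty :=
      (hσ _).inter_open_nonempty _ (hO n).1 (hO n).2
    have h2 := hpick _ h1
    rw [← hrun n] at h2
    rw [← hrun n]
    exact h2
  refine ⟨fun n => ?_, ?_⟩
  · simp only [hlast]
    exact (hmem n).1
  · have : (fun n => pick ((((List.range (n + 1)).map O).getLastD ∅) ∩
      σ (run (((List.range (n + 1)).map O).dropLast)))) = x := funext hlast
    rw [this]
    exact hwin x fun n => (hmem n).2

theorem one_of_twoDense {X : Type} [TopologicalSpace X] [Nonempty X] (h : TwoWinsDense X) :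
    OneWinsOpenPoint X := by
  classical
  obtain ⟨τ, hτ⟩ := h
  have hleg : ∀ L : List (Set X), (∀ D ∈ L, Dense D) → ∀ D : Set X, Dense D →
      τ (L ++ [D]) ∈ D := by
    intro L hL D hD
    let D' : ℕ → Set X := fun n => (L ++ [D]).getD n univ
    have h1 : ∀ n, Dense (D' n) := by
      intro n
      simp only [D', List.getD]
      rcases h : (L ++ [D])[n]? with _ | S
      · simp
      · simp only [Option.getD_some]
        have := List.mem_of_getElem? h
        rcases List.mem_append.mp this with h | h
        · exact hL _ h
        · rw [List.mem_singleton.mp h]; exact hD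
    have h2 : (List.range (L.length + 1)).map D' = L ++ [D] := by
      apply List.ext_getElem
      · simp
      · intro i h3 h4
        simp only [List.getElem_map, List.getElem_range, D', List.getD]
        rw [List.getElem?_eq_getElem h4]
        rfl
    have h3 := (hτ D' h1).1 L.length
    rw [h2] at h3
    simpa [D'] using h3
  have key : ∀ L : List (Set X), ∃ O : Set X, (IsOpen O ∧ O.Nonempty) ∧
      ((∀ D ∈ L, Dense D) → ∀ x ∈ O, ∃ D, Dense D ∧ τ (L ++ [D]) = x) := by
    intro L
    by_cases hL : ∀ D ∈ L, Dense D
    · by_cases hd : Dense {x | ∀ D, Dense D → τ (L ++ [D]) ≠ x}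
      · exact absurd rfl ((hleg L hL _ hd) _ hd)
      · rw [dense_iff_inter_open] at hd
        push Not at hd
        obtain ⟨O, hO, hne, hemp⟩ := hd
        refine ⟨O, ⟨hO, hne⟩, fun _ x hx => ?_⟩
        by_contra hcon
        push Not at hcon
        have : x ∈ O ∩ {x | ∀ D, Dense D → τ (L ++ [D]) ≠ x} := ⟨hx, hcon⟩
        rw [hemp] at this
        exact this
    · exact ⟨univ, ⟨isOpen_univ, univ_nonempty⟩, fun h => absurd h hL⟩
  choose Op hOp hD using key
  let dd : List (Set X) → X → Set X := fun L x =>
    if h : ∃ D, Dense D ∧ τ (L ++ [D]) = x then h.choose else univ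
  have hdd : ∀ L x, Dense (dd L x) := by
    intro L x
    simp only [dd]
    split_ifs with h
    · exact h.choose_spec.1
    · exact dense_univ
  let run : List X → List (Set X) := fun s => s.foldl (fun L x => L ++ [dd L x]) []
  refine ⟨fun s => Op (run s), fun s => hOp _, fun x hx => ?_⟩
  let D : ℕ → Set X := fun n => dd (run ((List.range n).map x)) (x n)
  have hrun : ∀ n, run ((List.range n).map x) = (List.range n).map D := by
    intro n
    induction n with
    | zero => simp [run]
    | succ k ih =>
      rw [List.range_succ, List.map_append, List.map_append]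
      simp only [run, List.foldl_append, List.map_cons, List.map_nil, List.foldl_cons,
        List.foldl_nil] at ih ⊢
      rw [ih]
      simp only [D, run, ih]
  have hDd : ∀ n, Dense (D n) := fun n => hdd _ _
  have hval : ∀ n, τ ((List.range (n + 1)).map D) = x n := by
    intro n
    rw [List.range_succ, List.map_append, List.map_cons, List.map_nil]
    have h1 : ∀ S ∈ (List.range n).map D, Dense S := by
      intro S hS
      obtain ⟨k, _, rfl⟩ := List.mem_map.mp hS
      exact hDd k
    have h2 : ∃ S, Dense S ∧ τ ((List.range n).map D ++ [S]) = x n := by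
      apply hD _ h1
      have h6 : x n ∈ Op (run ((List.range n).map x)) := hx n
      rw [hrun n] at h6
      exact h6
    have h3 : D n = h2.choose := by
      simp only [D, dd, hrun n]
      rw [dif_pos h2]
    rw [h3]
    exact h2.choose_spec.2
  have h4 := (hτ D hDd).2
  have h5 : (fun n => τ ((List.range (n + 1)).map D)) = x := funext hval
  rw [h5] at h4
  exact h4

end Pool.Agent.H748R3
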