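import Mathlib
import Pool.Agent.H748R3.OpenPoint

set_option autoImplicit false

open Set Topology

namespace Pool.Agent.H748R3

/-- Points of the space: an index in `W` and a rational. -/
structure Pt (W : Type) : Type where
  /-- the index -/
  idx : W
  /-- the rational -/
  q : ℚ

theorem Pt.ext' {W : Type} {x y : Pt W} (h1 : x.idx = y.idx) (h2 : x.q = y.q) : x = y := by
  cases x; cases y; simp_all

section

variable {W : Type} [LinearOrder W] (c : W → ℝ) (E : Set W) (C : W → Set W)

/-- The coarser map into the reals. -/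
def phi (x : Pt W) : ℝ := c x.idx + x.q

/-- The basic open sets. -/
def basic (a b : ℝ) (G K : Finset W) : Set (Pt W) :=
  {y | a < phi c y ∧ phi c y < b ∧ y.idx ∉ K ∧ ∀ γ ∈ G, γ ∈ E → y.idx ∉ C γ}

/-- The topology: `U` is open if with each `x` it contains all `y` with `phi y` close to `phi x`
whose index avoids a finite set and finitely many ladders `C γ`, `γ ∈ E`. -/
def topo : TopologicalSpace (Pt W) where
  IsOpen U := ∀ x ∈ U, ∃ ε > 0, ∃ G K : Finset W, basic c E C (phi c x - ε) (phi c x + ε) G K ⊆ U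
  isOpen_univ := fun _ _ => ⟨1, one_pos, ∅, ∅, subset_univ _⟩
  isOpen_inter := by
    classical
    intro U V hU hV x hx
    obtain ⟨ε, hε, G, K, h1⟩ := hU x hx.1
    obtain ⟨ε', hε', G', K', h2⟩ := hV x hx.2
    refine ⟨min ε ε', lt_min hε hε', G ∪ G', K ∪ K', fun y hy => ?_⟩
    obtain ⟨h3, h4, h5, h6⟩ := hy
    have e1 := min_le_left ε ε'
    have e2 := min_le_right ε ε'
    refine ⟨h1 ⟨by linarith, by linarith, fun h => h5 (Finset.mem_union_left _ h),
      fun γ hγ => h6 γ (Finset.mem_union_left _ hγ)⟩,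
      h2 ⟨by linarith, by linarith, fun h => h5 (Finset.mem_union_right _ h),
      fun γ hγ => h6 γ (Finset.mem_union_right _ hγ)⟩⟩
  isOpen_sUnion := by
    intro S hS x hx
    obtain ⟨U, hU, hxU⟩ := hx
    obtain ⟨ε, hε, G, K, h1⟩ := hS U hU x hxU
    exact ⟨ε, hε, G, K, h1.trans (subset_sUnion_of_mem hU)⟩

theorem isOpen_basic (a b : ℝ) (G K : Finset W) : IsOpen[topo c E C] (basic c E C a b G K) := by
  intro x hx
  obtain ⟨h1, h2, h3, h4⟩ := hx
  refine ⟨min (phi c x - a) (b - phi c x), lt_min (by linarith) (by linarith), G, K, ?_⟩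
  intro y hy
  obtain ⟨h5, h6, h7, h8⟩ := hy
  have e1 := min_le_left (phi c x - a) (b - phi c x)
  have e2 := min_le_right (phi c x - a) (b - phi c x)
  exact ⟨by linarith, by linarith, h7, h8⟩

theorem exists_basic_sub (U : Set (Pt W)) (hU : IsOpen[topo c E C] U) (hne : U.Nonempty) :
    ∃ a b : ℚ, a < b ∧ ∃ G K : Finset W, basic c E C a b G K ⊆ U := by
  obtain ⟨x, hx⟩ := hne
  obtain ⟨ε, hε, G, K, h⟩ := hU x hx
  obtain ⟨a, ha1, ha2⟩ := exists_rat_btwn (show phi c x - ε < phi c x by linarith)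
  obtain ⟨b, hb1, hb2⟩ := exists_rat_btwn (show phi c x < phi c x + ε by linarith)
  refine ⟨a, b, by exact_mod_cast ha2.trans hb1, G, K, fun y hy => h ?_⟩
  obtain ⟨h1, h2, h3, h4⟩ := hy
  exact ⟨by linarith, by linarith, h3, h4⟩

theorem exists_q (α : W) {a b : ℝ} (hab : a < b) : ∃ q : ℚ, a < phi c ⟨α, q⟩ ∧
    phi c ⟨α, q⟩ < b := by
  obtain ⟨q, h1, h2⟩ := exists_rat_btwn (show a - c α < b - c α by linarith)
  exact ⟨q, by simp only [phi]; linarith, by simp only [phi]; linarith⟩

theorem continuous_phi : @Continuous _ _ (topo c E C) _ (phi c) := by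
  letI := topo c E C
  rw [continuous_def]
  intro V hV x hx
  obtain ⟨ε, hε, h⟩ := Metric.isOpen_iff.mp hV _ hx
  refine ⟨ε, hε, ∅, ∅, fun y hy => h ?_⟩
  obtain ⟨h1, h2, -, -⟩ := hy
  rw [Metric.mem_ball, Real.dist_eq, abs_lt]
  exact ⟨by linarith, by linarith⟩

variable {E C}

theorem basic_nonempty (hW : OmegaOneLike W) (hC1 : ∀ δ, C δ ⊆ Iio δ)
    {a b : ℝ} (hab : a < b) (G K : Finset W) : (basic c E C a b G K).Nonempty := by
  obtain ⟨α, hα⟩ := hW.bdd ((K : Set W) ∪ G)
    ((K.finite_toSet.union G.finite_toSet).countable)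
  obtain ⟨q, h1, h2⟩ := exists_q c α hab
  refine ⟨⟨α, q⟩, h1, h2, fun h => ?_, fun γ hγ _ h => ?_⟩
  · exact lt_irrefl _ (hα α (Or.inl h))
  · exact lt_irrefl _ ((hα γ (Or.inr hγ)).trans (hC1 γ h))

theorem countable_pts (hW : OmegaOneLike W) (t : Finset W) :
    {y : Pt W | y.idx ∈ t}.Countable := by
  have : {y : Pt W | y.idx ∈ t} ⊆ ⋃ a ∈ t, range (fun q : ℚ => (⟨a, q⟩ : Pt W)) := by
    intro y hy
    simp only [mem_iUnion]
    exact ⟨y.idx, hy, y.q, rfl⟩
  refine Set.Countable.mono this ?_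
  exact t.countable_toSet.biUnion fun a _ => countable_range _

/-- ONE has no winning strategy in the open-point game. -/
theorem not_one (hW : OmegaOneLike W) (hC1 : ∀ δ, C δ ⊆ Iio δ)
    (hC2 : ∀ δ γ, γ < δ → (C δ ∩ Iio γ).Finite)
    (hC3 : ∀ δ, (Iio δ).Nonempty → (∀ a < δ, ∃ b, a < b ∧ b < δ) → (C δ).Infinite)
    (hE : Stat E) : ¬ @OneWinsOpenPoint (Pt W) (topo c E C) := by
  classical
  letI := topo c E C
  rintro ⟨σ, hσ, hwin⟩
  have h1 : ∀ s, ∃ a b : ℚ, a < b ∧ ∃ G K : Finset W, basic c E C a b G K ⊆ σ s :=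
    fun s => exists_basic_sub c E C _ (hσ s).1 (hσ s).2
  choose a b hab G K hsub using h1
  have h2 : ∀ t : Finset W, ∃ β : W, (∀ x ∈ t, x < β) ∧
      ∀ s : List (Pt W), (∀ y ∈ s, y.idx ∈ t) → ∀ γ ∈ G s, γ < β := by
    intro t
    have hc : ((t : Set W) ∪ ⋃ s ∈ {s : List (Pt W) | ∀ y ∈ s, y ∈ {y : Pt W | y.idx ∈ t}},
        (G s : Set W)).Countable :=
      t.countable_toSet.union
        ((countable_lists _ (countable_pts hW t)).biUnion fun s _ => (G s).countable_toSet)
    obtain ⟨β, hβ⟩ := hW.bdd _ hc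
    refine ⟨β, fun x hx => hβ x (Or.inl hx), fun s hs γ hγ => hβ γ (Or.inr ?_)⟩
    simp only [mem_iUnion]
    exact ⟨s, hs, hγ⟩
  choose h hh1 hh2 using h2
  obtain ⟨δ, hδE, hcl⟩ := hE h
  have hinf : (C δ).Infinite := by
    apply hC3
    · exact ⟨h ∅, hcl ∅ (by simp)⟩
    · intro x hx
      exact ⟨h {x}, hh1 {x} x (by simp), hcl {x} (by simpa using hx)⟩
  have h3 : ∀ s : List (Pt W), ∃ y : Pt W, (∀ z ∈ s, z.idx < δ) → y ∈ σ s ∧ y.idx ∈ C δ := by
    intro s
    by_cases hs : ∀ z ∈ s, z.idx < δ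
    · have hG : ∀ γ ∈ G s, γ < δ := by
        intro γ hγ
        refine (hh2 (s.map Pt.idx).toFinset s ?_ γ hγ).trans (hcl _ ?_)
        · intro y hy
          simp only [List.mem_toFinset, List.mem_map]
          exact ⟨y, hy, rfl⟩
        · intro x hx
          simp only [List.mem_toFinset, List.mem_map] at hx
          obtain ⟨y, hy, rfl⟩ := hx
          exact hs y hy
      have hfin : ((⋃ γ ∈ G s, C δ ∩ Iio γ) ∪ (K s : Set W)).Finite :=
        ((G s).finite_toSet.biUnion fun γ hγ => hC2 δ γ (hG γ hγ)).union (K s).finite_toSet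
      obtain ⟨α, hα1, hα2⟩ := hinf.exists_notMem_finite hfin
      obtain ⟨q, hq1, hq2⟩ := exists_q c α (show ((a s : ℚ) : ℝ) < (b s : ℚ) by
        exact_mod_cast hab s)
      refine ⟨⟨α, q⟩, fun _ => ⟨hsub s ⟨hq1, hq2, ?_, ?_⟩, hα1⟩⟩
      · intro hK
        exact hα2 (Or.inr hK)
      · intro γ hγ _ hmem
        apply hα2
        left
        simp only [mem_iUnion]
        exact ⟨γ, hγ, hα1, hC1 γ hmem⟩
    · exact ⟨⟨δ, 0⟩, fun h => absurd h hs⟩
  choose pick hpick using h3
  obtain ⟨x, hx⟩ := exists_hist pick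
  have h4 : ∀ n, ∀ m < n, (x m).idx < δ := by
    intro n
    induction n with
    | zero => intro m hm; omega
    | succ k ih =>
      intro m hm
      rcases Nat.lt_succ_iff_lt_or_eq.mp hm with h | h
      · exact ih m h
      · subst h
        rw [hx m]
        apply hC1
        refine (hpick _ ?_).2
        intro z hz
        obtain ⟨j, hj, rfl⟩ := List.mem_map.mp hz
        exact ih j (List.mem_range.mp hj)
  have h5 : ∀ n, x n ∈ σ ((List.range n).map x) ∧ (x n).idx ∈ C δ := by
    intro n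
    have := hpick ((List.range n).map x) (by
      intro z hz
      obtain ⟨j, hj, rfl⟩ := List.mem_map.mp hz
      exact h4 n j (List.mem_range.mp hj))
    rw [← hx n] at this
    exact this
  have h6 := hwin x fun n => (h5 n).1
  obtain ⟨y, hy1, n, rfl⟩ := h6.inter_open_nonempty (basic c E C 0 1 {δ} ∅)
    (isOpen_basic c E C _ _ _ _) (basic_nonempty c hW hC1 one_pos _ _)
  exact hy1.2.2.2 δ (Finset.mem_singleton_self _) hδE (h5 n).2

/-- TWO has no winning strategy in the open-point game. -/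
theorem not_two (hW : OmegaOneLike W) (hC1 : ∀ δ, C δ ⊆ Iio δ)
    (hC2 : ∀ δ γ, γ < δ → (C δ ∩ Iio γ).Finite)
    (hE : Stat Eᶜ) : ¬ @TwoWinsOpenPoint (Pt W) (topo c E C) := by
  classical
  letI := topo c E C
  rintro ⟨τ, hτ⟩
  -- codes of basic open sets
  obtain ⟨e, he⟩ : ∃ e : ℕ → {p : ℚ × ℚ // p.1 < p.2}, Function.Surjective e :=
    haveI : Nonempty {p : ℚ × ℚ // p.1 < p.2} := ⟨⟨(0, 1), by norm_num⟩⟩
    exists_surjective_nat _
  let B : ℕ × Finset W × Finset W → Set (Pt W) := fun m =>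
    basic c E C ((e m.1).1.1 : ℚ) ((e m.1).1.2 : ℚ) m.2.1 m.2.2
  have hB : ∀ m, IsOpen (B m) ∧ (B m).Nonempty := fun m =>
    ⟨isOpen_basic c E C _ _ _ _, basic_nonempty c hW hC1 (by exact_mod_cast (e m.1).2) _ _⟩
  let T : List (ℕ × Finset W × Finset W) → Pt W := fun L => τ (L.map B)
  have h2 : ∀ t : Finset W, ∃ β : W, (∀ x ∈ t, x < β) ∧
      ∀ L : List (ℕ × Finset W × Finset W), (∀ m ∈ L, m.2.1 ⊆ t ∧ m.2.2 ⊆ t) →
        (T L).idx < β := by
    intro t
    have hcm : {m : ℕ × Finset W × Finset W | m.2.1 ⊆ t ∧ m.2.2 ⊆ t}.Countable := by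
      have : {m : ℕ × Finset W × Finset W | m.2.1 ⊆ t ∧ m.2.2 ⊆ t} =
          (univ : Set ℕ) ×ˢ ((t.powerset : Set (Finset W)) ×ˢ (t.powerset : Set (Finset W))) := by
        ext m
        simp
      rw [this]
      exact countable_univ.prod (t.powerset.countable_toSet.prod t.powerset.countable_toSet)
    have hc : ((t : Set W) ∪ (fun L => (T L).idx) '' {L : List (ℕ × Finset W × Finset W) |
        ∀ m ∈ L, m ∈ {m : ℕ × Finset W × Finset W | m.2.1 ⊆ t ∧ m.2.2 ⊆ t}}).Countable :=
      t.countable_toSet.union ((countable_lists _ hcm).image _)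
    obtain ⟨β, hβ⟩ := hW.bdd _ hc
    exact ⟨β, fun x hx => hβ x (Or.inl hx), fun L hL => hβ _ (Or.inr ⟨L, hL, rfl⟩)⟩
  choose h hh1 hh2 using h2
  obtain ⟨δ, hδE, hcl⟩ := hE h
  obtain ⟨e', he'⟩ := (hW.initial δ).exists_eq_range ⟨h ∅, hcl ∅ (by simp)⟩
  have he'δ : ∀ n, e' n < δ := fun n => by
    have : e' n ∈ Iio δ := by rw [he']; exact ⟨n, rfl⟩
    exact this
  -- the moves of ONE
  let Gn : ℕ → Finset W := fun n => (Finset.range (n + 1)).image e'
  let pick : List (ℕ × Finset W × Finset W) → ℕ × Finset W × Finset W := fun L =>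
    ((Nat.unpair L.length).1, Gn L.length,
      (Finset.range L.length).image fun j => (T (L.take (j + 1))).idx)
  obtain ⟨m, hm⟩ := exists_hist pick
  set x : ℕ → Pt W := fun n => T ((List.range (n + 1)).map m) with hx
  have hm1 : ∀ n, (m n).1 = (Nat.unpair n).1 := fun n => by
    rw [hm n]; simp [pick]
  have hm2 : ∀ n, (m n).2.1 = Gn n := fun n => by
    rw [hm n]; simp [pick]
  have hm3 : ∀ n, (m n).2.2 = (Finset.range n).image fun j => (x j).idx := fun n => by
    rw [hm n]
    simp only [pick, List.length_map, List.length_range]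
    apply Finset.image_congr
    intro j hj
    simp only [Finset.coe_range, mem_Iio] at hj
    simp only [hx]
    rw [← List.map_take, List.take_range, Nat.min_eq_left (by omega)]
  have hO : ∀ n, IsOpen (B (m n)) ∧ (B (m n)).Nonempty := fun n => hB _
  obtain ⟨hleg, hnd⟩ := hτ (fun n => B (m n)) hO
  have hxT : ∀ n, τ ((List.range (n + 1)).map fun n => B (m n)) = x n := by
    intro n
    simp only [hx, T, List.map_map]
    rfl
  simp only [hxT] at hleg hnd
  apply hnd
  -- all indices are below δ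
  have hlt : ∀ n, ∀ k < n, (x k).idx < δ := by
    intro n
    induction n with
    | zero => intro k hk; omega
    | succ n ih =>
      intro k hk
      rcases Nat.lt_succ_iff_lt_or_eq.mp hk with hk | hk
      · exact ih k hk
      · subst hk
        let t : Finset W := (Finset.range (k + 1)).biUnion fun j => (m j).2.1 ∪ (m j).2.2
        refine (hh2 t ((List.range (k + 1)).map m) ?_).trans (hcl t ?_)
        · intro y hy
          obtain ⟨j, hj, rfl⟩ := List.mem_map.mp hy
          have hj' := List.mem_range.mp hj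
          constructor
          · intro z hz
            exact Finset.mem_biUnion.mpr ⟨j, Finset.mem_range.mpr hj', Finset.mem_union_left _ hz⟩
          · intro z hz
            exact Finset.mem_biUnion.mpr ⟨j, Finset.mem_range.mpr hj', Finset.mem_union_right _ hz⟩
        · intro z hz
          obtain ⟨j, hj, hz⟩ := Finset.mem_biUnion.mp hz
          have hj' := Finset.mem_range.mp hj
          rcases Finset.mem_union.mp hz with hz | hz
          · rw [hm2] at hz
            obtain ⟨i, _, rfl⟩ := Finset.mem_image.mp hz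
            exact he'δ i
          · rw [hm3] at hz
            obtain ⟨i, hi, rfl⟩ := Finset.mem_image.mp hz
            exact ih i (by have := Finset.mem_range.mp hi; omega)
  have hltδ : ∀ n, (x n).idx < δ := fun n => hlt (n + 1) n (by omega)
  have hinj : Function.Injective fun n => (x n).idx := by
    have key : ∀ i j, i < j → (x i).idx ≠ (x j).idx := by
      intro i j hij heq
      have h1 := (hleg j).2.2.1
      apply h1
      rw [hm3]
      exact Finset.mem_image.mpr ⟨i, Finset.mem_range.mpr hij, heq⟩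
    intro i j hij
    rcases lt_trichotomy i j with h | h | h
    · exact absurd hij (key i j h)
    · exact h
    · exact absurd hij.symm (key j i h)
  rw [dense_iff_inter_open]
  intro U hU hne
  obtain ⟨a, b, hab, G, K, hsub⟩ := exists_basic_sub c E C U hU hne
  obtain ⟨i0, hi0⟩ := he ⟨(a, b), hab⟩
  let N : Set ℕ := {n | (Nat.unpair n).1 = i0}
  have hN : N.Infinite := by
    refine Set.infinite_of_injective_forall_mem (f := fun k => Nat.pair i0 k) ?_ ?_
    · intro k l hkl
      simpa using hkl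
    · intro k
      simp [N]
  have hfin : ({n | (x n).idx ∈ K} ∪ ⋃ γ ∈ G, {n | γ ∈ E ∧ (x n).idx ∈ C γ}).Finite := by
    refine Set.Finite.union ?_ ?_
    · exact K.finite_toSet.preimage hinj.injOn
    · refine G.finite_toSet.biUnion fun γ _ => ?_
      by_cases hγE : γ ∈ E
      · rcases lt_trichotomy γ δ with hlt' | heq | hgt
        · have : γ ∈ range e' := by rw [← he']; exact hlt'
          obtain ⟨j, rfl⟩ := this
          refine (Set.finite_Iio j).subset ?_
          intro n hn
          by_contra hc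
          simp only [mem_Iio, not_lt] at hc
          refine (hleg n).2.2.2 (e' j) ?_ hγE hn.2
          rw [hm2]
          exact Finset.mem_image.mpr ⟨j, Finset.mem_range.mpr (by omega), rfl⟩
        · subst heq
          exact absurd hγE hδE
        · refine ((hC2 γ δ hgt).preimage hinj.injOn).subset ?_
          intro n hn
          exact ⟨hn.2, hltδ n⟩
      · refine Set.Finite.subset Set.finite_empty ?_
        intro n hn
        exact absurd hn.1 hγE
  obtain ⟨n, hn1, hn2⟩ := hN.exists_notMem_finite hfin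
  refine ⟨x n, hsub ?_, n, rfl⟩
  have h3 := hleg n
  have h4 : (e (m n).1).1 = (a, b) := by
    rw [hm1, show (Nat.unpair n).1 = i0 from hn1, hi0]
  refine ⟨?_, ?_, fun hK => hn2 (Or.inl hK), fun γ hγ hγE hC => hn2 (Or.inr ?_)⟩
  · have := h3.1
    rw [h4] at this
    exact this
  · have := h3.2.1
    rw [h4] at this
    exact this
  · simp only [mem_iUnion]
    exact ⟨γ, hγ, hγE, hC⟩

end

end Pool.Agent.H748R3
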